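import Pool.Agent.Lib.MP_0a5adf_nt.TP.Interfaces

/-!
Module JCORE (TAO+): decomposition of the joint oscillation.  (helper60)
-/

set_option autoImplicit false

namespace Pool.Agent.Lib.MP_0a5adf_nt.TP.H60

open Finset

/-! ### Elementary properties of `oscf` -/

theorem oscf_nonneg (n : ℕ) (g : ZMod (3 ^ n) → ℝ) : 0 ≤ oscf n g :=
  Finset.sum_nonneg fun _ _ => abs_nonneg _

theorem oscf_add_le (n : ℕ) (g g' : ZMod (3 ^ n) → ℝ) :
    oscf n (fun X => g X + g' X) ≤ oscf n g + oscf n g' := by
  unfold oscf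
  rw [← Finset.sum_add_distrib]
  apply Finset.sum_le_sum
  intro X _
  refine le_trans (le_of_eq ?_) (abs_add_le _ _)
  congr 1
  ring

theorem oscf_zero (n : ℕ) : oscf n (fun _ => 0) = 0 := by
  unfold oscf
  simp

theorem oscf_sum_le {ι : Type*} (n : ℕ) (s : Finset ι) (g : ι → ZMod (3 ^ n) → ℝ) :
    oscf n (fun X => ∑ i ∈ s, g i X) ≤ ∑ i ∈ s, oscf n (g i) := by
  classical
  induction s using Finset.induction_on with
  | empty => simp [oscf_zero]
  | insert i s hi ih =>
    rw [Finset.sum_insert hi]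
    have h1 : (fun X => ∑ j ∈ insert i s, g j X) = fun X => g i X + ∑ j ∈ s, g j X := by
      funext X
      rw [Finset.sum_insert hi]
    rw [h1]
    exact (oscf_add_le n _ _).trans (by gcongr)

theorem oscf_le (n : ℕ) (g : ZMod (3 ^ n) → ℝ) (hg : ∀ X, 0 ≤ g X) :
    oscf n g ≤ 2 * ∑ X : ZMod (3 ^ n), g X := by
  have hshift : ∀ y : ZMod (3 ^ n), ∑ X : ZMod (3 ^ n), g (X + y) = ∑ X : ZMod (3 ^ n), g X :=
    fun y => Equiv.sum_comp (Equiv.addRight y) g
  calc oscf n g ≤ ∑ X : ZMod (3 ^ n), (g X + (g X + g (X + 3 ^ (n - 1)) + g (X + 2 * 3 ^ (n - 1))) / 3) := by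
        unfold oscf
        apply Finset.sum_le_sum
        intro X _
        have h1 := hg X
        have h2 := hg (X + 3 ^ (n - 1))
        have h3 := hg (X + 2 * 3 ^ (n - 1))
        rw [abs_le]
        constructor <;> linarith
    _ = 2 * ∑ X : ZMod (3 ^ n), g X := by
        rw [Finset.sum_add_distrib, ← Finset.sum_div, Finset.sum_add_distrib, Finset.sum_add_distrib,
          hshift, hshift]
        ring

theorem sum_count {α : Type*} (n : ℕ) (s : Finset α) (φ : α → ZMod (3 ^ n)) (r : ℝ) :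
    ∑ X : ZMod (3 ^ n), ((s.filter fun S => φ S = X).card : ℝ) / r = (s.card : ℝ) / r := by
  rw [← Finset.sum_div, ← Nat.cast_sum]
  congr 2
  exact (Finset.card_eq_sum_card_fiberwise (fun _ _ => Finset.mem_univ _)).symm

/-! ### Words -/

theorem mem_Fam {n c : ℕ} {S : Finset ℕ} : S ∈ Fam n c ↔ (S ⊆ Icc 1 c ∧ S.card = n) ∧ S.sup id = c := by
  unfold Fam
  rw [Finset.mem_filter, Finset.mem_powersetCard]

theorem max_mem {k a : ℕ} {A : Finset ℕ} (hA : A ∈ Fam (k + 1) a) : a ∈ A := by
  obtain ⟨⟨_, h2⟩, h3⟩ := mem_Fam.1 hA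
  have hne : A.Nonempty := by
    rw [← Finset.card_pos]; omega
  obtain ⟨y, hy, hya⟩ := Finset.exists_mem_eq_sup A hne id
  rw [h3] at hya
  simp only [id_eq] at hya
  rw [hya]; exact hy

/-- restriction to `[1, a]` does not change the terms -/
theorem xr_filter_le (S : Finset ℕ) (a : ℕ) : xr (S.filter (· ≤ a)) ≤ xr S := by
  unfold xr
  have h1 : ∑ x ∈ S.filter (· ≤ a), (3 : ℝ) ^ rk (S.filter (· ≤ a)) x / 2 ^ x =
      ∑ x ∈ S.filter (· ≤ a), (3 : ℝ) ^ rk S x / 2 ^ x := by
    apply Finset.sum_congr rfl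
    intro x hx
    have hxa := (Finset.mem_filter.1 hx).2
    have : rk (S.filter (· ≤ a)) x = rk S x := by
      unfold rk
      congr 1
      ext y
      simp only [Finset.mem_filter]
      constructor
      · rintro ⟨⟨h1, _⟩, h2⟩; exact ⟨h1, h2⟩
      · rintro ⟨h1, h2⟩; exact ⟨⟨h1, by omega⟩, h2⟩
    rw [this]
  rw [h1]
  apply Finset.sum_le_sum_of_subset_of_nonneg (Finset.filter_subset _ _)
  intro x _ _
  positivity

/-- the typical words -/
def Ty (b t h : ℕ) (x : ℝ) (S : Finset ℕ) : Prop :=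
  (S.filter (· ≤ b)).card < h ∧ ∃ a, b < a ∧ a ≤ b + t ∧ a ∈ S ∧
    (S.filter (· ≤ a)).card = (S.filter (· ≤ b)).card + 1 ∧ xr (S.filter (· ≤ a)) < x

/-- the three exceptional cases -/
theorem not_ty {n b t h : ℕ} {x : ℝ} {S : Finset ℕ} (hn : h < n) (hS : ¬ Ty b t h x S) :
    h ≤ (S.filter (· ≤ b)).card ∨ ((S.filter (· ≤ b + t)).card < n ∧
      (S.filter (· ≤ b + t)).card = (S.filter (· ≤ b)).card) ∨ x ≤ xr S := by
  by_cases h1 : h ≤ (S.filter (· ≤ b)).card
  · exact Or.inl h1
  right
  push Not at h1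
  by_cases h2 : ∃ a ∈ S, b < a ∧ a ≤ b + t
  · right
    obtain ⟨a, ha, hmin⟩ := Finset.exists_min_image (S.filter fun a => b < a ∧ a ≤ b + t) id (by
      obtain ⟨a, ha, h3⟩ := h2
      exact ⟨a, Finset.mem_filter.2 ⟨ha, h3⟩⟩)
    obtain ⟨haS, hba, hat⟩ := Finset.mem_filter.1 ha
    have hset : S.filter (· ≤ a) = insert a (S.filter (· ≤ b)) := by
      ext y
      simp only [Finset.mem_filter, Finset.mem_insert]
      constructor
      · rintro ⟨hy, hya⟩
        by_cases hyb : y ≤ b
        · exact Or.inr ⟨hy, hyb⟩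
        · left
          have := hmin y (Finset.mem_filter.2 ⟨hy, by omega, by omega⟩)
          simp only [id_eq] at this
          omega
      · rintro (rfl | ⟨hy, hyb⟩)
        · exact ⟨haS, le_refl _⟩
        · exact ⟨hy, by omega⟩
    by_contra hcon
    push Not at hcon
    apply hS
    refine ⟨h1, a, hba, hat, haS, ?_, lt_of_le_of_lt (xr_filter_le S a) hcon⟩
    rw [hset, Finset.card_insert_of_notMem]
    simp only [Finset.mem_filter, not_and, not_le]
    intro _; exact hba
  · left
    push Not at h2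
    have hset : S.filter (· ≤ b + t) = S.filter (· ≤ b) := by
      ext y
      simp only [Finset.mem_filter]
      constructor
      · rintro ⟨hy, hyb⟩
        refine ⟨hy, ?_⟩
        by_contra hcon
        push Not at hcon
        exact absurd hyb (not_le.2 (h2 y hy hcon))
      · rintro ⟨hy, hyb⟩
        exact ⟨hy, by omega⟩
    rw [hset]
    exact ⟨by omega, rfl⟩

/-- the heads -/
noncomputable def hF (b h' a : ℕ) (x : ℝ) : Finset (Finset ℕ) := by
  classical exact (Fam (h' + 1) a).filter fun A => (A.filter (· ≤ b)).card = h' ∧ xr A < x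

theorem ty_cat (hcat : CatStatement) {b t h h' k' a c : ℕ} {x : ℝ} {A B : Finset ℕ} (hh : h' < h)
    (hA : A ∈ Fam (h' + 1) a) (hB : B ∈ Fam k' c) :
    (Ty b t h x (cat a A B) ∧ ((cat a A B).filter (· ≤ b)).card = h') ↔
      (b < a ∧ a ≤ b + t ∧ (A.filter (· ≤ b)).card = h' ∧ xr A < x) := by
  obtain ⟨⟨hA1, hA2⟩, hA3⟩ := mem_Fam.1 hA
  obtain ⟨⟨hB1, hB2⟩, hB3⟩ := mem_Fam.1 hB
  obtain ⟨_, _, _, _, hle, _⟩ := hcat a c A B hA1 hB1
  have haA : a ∈ A := max_mem hA
  have hfa : (cat a A B).filter (· ≤ a) = A := by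
    ext y
    rw [Finset.mem_filter]
    constructor
    · rintro ⟨h1, h2⟩; exact (hle y h2).1 h1
    · intro hy
      have hya : y ≤ a := (Finset.mem_Icc.1 (hA1 hy)).2
      exact ⟨(hle y hya).2 hy, hya⟩
  have hfb : b < a → (cat a A B).filter (· ≤ b) = A.filter (· ≤ b) := by
    intro hba
    ext y
    rw [Finset.mem_filter, Finset.mem_filter]
    constructor
    · rintro ⟨h1, h2⟩; exact ⟨(hle y (by omega)).1 h1, h2⟩
    · rintro ⟨h1, h2⟩; exact ⟨(hle y (by omega)).2 h1, h2⟩
  have hac : a ∈ cat a A B := (hle a le_rfl).2 haA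
  constructor
  · rintro ⟨⟨_, a', hba', hat', ha'S, hcard, hxr⟩, hh'⟩
    have haa' : a' = a := by
      rw [hh'] at hcard
      have hca : ((cat a A B).filter (· ≤ a)).card = h' + 1 := by rw [hfa, hA2]
      rcases lt_trichotomy a' a with hlt | heq | hgt
      · exfalso
        have hss : (cat a A B).filter (· ≤ a') ⊂ (cat a A B).filter (· ≤ a) := by
          rw [Finset.ssubset_iff_of_subset]
          · exact ⟨a, Finset.mem_filter.2 ⟨hac, le_rfl⟩, fun hcon => by
              have := (Finset.mem_filter.1 hcon).2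
              omega⟩
          · intro y hy
            obtain ⟨h1, h2⟩ := Finset.mem_filter.1 hy
            exact Finset.mem_filter.2 ⟨h1, by omega⟩
        have := Finset.card_lt_card hss
        omega
      · exact heq
      · exfalso
        have hss : (cat a A B).filter (· ≤ a) ⊂ (cat a A B).filter (· ≤ a') := by
          rw [Finset.ssubset_iff_of_subset]
          · exact ⟨a', Finset.mem_filter.2 ⟨ha'S, le_rfl⟩, fun hcon => by
              have := (Finset.mem_filter.1 hcon).2
              omega⟩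
          · intro y hy
            obtain ⟨h1, h2⟩ := Finset.mem_filter.1 hy
            exact Finset.mem_filter.2 ⟨h1, by omega⟩
        have := Finset.card_lt_card hss
        omega
    subst haa'
    refine ⟨hba', hat', ?_, ?_⟩
    · rw [← hfb hba']; exact hh'
    · rw [hfa] at hxr; exact hxr
  · rintro ⟨h1, h2, h3, h4⟩
    have hcb : ((cat a A B).filter (· ≤ b)).card = h' := by rw [hfb h1]; exact h3
    refine ⟨⟨by rw [hcb]; exact hh, a, h1, h2, hac, ?_, ?_⟩, hcb⟩
    · rw [hfa, hcb, hA2]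
    · rw [hfa]; exact h4

/-- the contribution of the heads with maximum `a` and `h'` elements up to `b` -/
noncomputable def hd (n b h' a c : ℕ) (x : ℝ) (X : ZMod (3 ^ n)) : ℕ :=
  ((hF b h' a x ×ˢ Fam (n - h' - 1) (c - a)).filter
    fun p => xz (3 ^ n) (cat a p.1 p.2) = X).card

open Classical in
theorem count_eq (hfs : FamSplitStatement) (hcat : CatStatement) {n b t h c : ℕ} {x : ℝ}
    (hn : h < n) (X : ZMod (3 ^ n)) :
    ((Fam n c).filter fun S => Ty b t h x S ∧ xz (3 ^ n) S = X).card =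
      ∑ h' ∈ range h, ∑ a ∈ (range (c + 1)).filter (fun a => b < a ∧ a ≤ b + t),
        hd n b h' a c x X := by
  rw [Finset.card_eq_sum_card_fiberwise (f := fun S : Finset ℕ => (S.filter (· ≤ b)).card)
    (t := range h)]
  · apply Finset.sum_congr rfl
    intro h' hh'
    have hh'' : h' < h := Finset.mem_range.1 hh'
    obtain ⟨k', hk'⟩ : ∃ k', n = (h' + 1) + k' := ⟨n - (h' + 1), by omega⟩
    have hk'' : n - h' - 1 = k' := by omega
    have e1 := hfs ℕ (h' + 1) k' c (fun S => if (Ty b t h x S ∧ (S.filter (· ≤ b)).card = h') ∧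
      xz (3 ^ n) S = X then 1 else 0)
    rw [← hk'] at e1
    rw [Finset.filter_filter, Finset.card_filter]
    have e2 : (∑ S ∈ Fam n c, if (Ty b t h x S ∧ xz (3 ^ n) S = X) ∧
        (S.filter (· ≤ b)).card = h' then 1 else 0) =
        ∑ S ∈ Fam n c, if (Ty b t h x S ∧ (S.filter (· ≤ b)).card = h') ∧
          xz (3 ^ n) S = X then 1 else 0 := by
      apply Finset.sum_congr rfl
      intro S _
      congr 1
      apply propext
      tauto
    rw [e2, e1, Finset.sum_filter]
    apply Finset.sum_congr rfl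
    intro a _
    unfold hd
    rw [hk'']
    have e3 : ∀ A ∈ Fam (h' + 1) a, (∑ B ∈ Fam k' (c - a),
        if (Ty b t h x (cat a A B) ∧ ((cat a A B).filter (· ≤ b)).card = h') ∧
          xz (3 ^ n) (cat a A B) = X then 1 else 0) =
        if (b < a ∧ a ≤ b + t) ∧ ((A.filter (· ≤ b)).card = h' ∧ xr A < x) then
          ((Fam k' (c - a)).filter fun B => xz (3 ^ n) (cat a A B) = X).card else 0 := by
      intro A hA
      by_cases hc : (b < a ∧ a ≤ b + t) ∧ ((A.filter (· ≤ b)).card = h' ∧ xr A < x)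
      · rw [if_pos hc, Finset.card_filter]
        apply Finset.sum_congr rfl
        intro B hB
        have := (ty_cat hcat hh'' hA hB (b := b) (t := t) (x := x)).2 ⟨hc.1.1, hc.1.2, hc.2.1, hc.2.2⟩
        congr 1
        apply propext
        exact ⟨fun h => h.2, fun h => ⟨this, h⟩⟩
      · rw [if_neg hc]
        apply Finset.sum_eq_zero
        intro B hB
        rw [if_neg]
        rintro ⟨h1, _⟩
        obtain ⟨g1, g2, g3, g4⟩ := (ty_cat hcat hh'' hA hB (b := b) (t := t) (x := x)).1 h1
        exact hc ⟨⟨g1, g2⟩, g3, g4⟩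
    rw [Finset.sum_congr rfl e3]
    by_cases hab : b < a ∧ a ≤ b + t
    · rw [if_pos hab]
      have e4 : ∀ A ∈ Fam (h' + 1) a,
          (if (b < a ∧ a ≤ b + t) ∧ ((A.filter (· ≤ b)).card = h' ∧ xr A < x) then
            ((Fam k' (c - a)).filter fun B => xz (3 ^ n) (cat a A B) = X).card else 0) =
          if ((A.filter (· ≤ b)).card = h' ∧ xr A < x) then
            ((Fam k' (c - a)).filter fun B => xz (3 ^ n) (cat a A B) = X).card else 0 := by
        intro A _
        congr 1
        apply propext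
        exact ⟨fun h => h.2, fun h => ⟨hab, h⟩⟩
      rw [Finset.sum_congr rfl e4, ← Finset.sum_filter, Finset.card_filter, Finset.sum_product]
      have e5 : hF b h' a x = (Fam (h' + 1) a).filter
          fun A => (A.filter (· ≤ b)).card = h' ∧ xr A < x := by
        unfold hF
        congr
      rw [e5]
      apply Finset.sum_congr rfl
      intro A _
      rw [Finset.card_filter]
    · rw [if_neg hab]
      apply Finset.sum_eq_zero
      intro A _
      rw [if_neg]
      rintro ⟨h1, _⟩
      exact hab h1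
  · intro S hS
    have := (Finset.mem_filter.1 hS).2.1.1
    exact Finset.mem_coe.2 (Finset.mem_range.2 this)

theorem hd_bound (hhead : HeadStatement) (hinj : InjStatement) {n b t h h' a c : ℕ} {x ε : ℝ}
    (hh' : h' < h) (hn : h < n) (hba : b < a) (hat : a ≤ b + t) (hac : a ≤ c) (hx : 0 < x)
    (hε : 0 ≤ ε) (hxn : x * 2 ^ (b + t) ≤ 3 ^ n)
    (hfour : ∀ (k' c' : ℕ) (ζ : ZMod (3 ^ k')), n - h ≤ k' → k' ≤ n → ¬ 3 ∣ ζ.val →
      ‖Fc k' c' ζ‖ ≤ ε) :
    oscf n (fun X => (hd n b h' a c x X : ℝ) / 2 ^ c) ≤ ε * √(3 ^ n / 2 ^ b) := by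
  obtain ⟨k', rfl⟩ : ∃ k', n = (h' + 1) + k' := ⟨n - (h' + 1), by omega⟩
  have hk'' : h' + 1 + k' - h' - 1 = k' := by omega
  have hsub : hF b h' a x ⊆ Fam (h' + 1) a := by
    unfold hF
    exact Finset.filter_subset _ _
  have hlt : ∀ A ∈ hF b h' a x, 2 ^ a * xr A < (3 : ℝ) ^ (h' + 1 + k') := by
    intro A hA
    have h1 : xr A < x := by
      unfold hF at hA
      exact (Finset.mem_filter.1 hA).2.2
    calc 2 ^ a * xr A < 2 ^ a * x := by
          apply mul_lt_mul_of_pos_left h1
          positivity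
      _ ≤ 2 ^ (b + t) * x := by
          apply mul_le_mul_of_nonneg_right _ hx.le
          exact pow_le_pow_right₀ (by norm_num) hat
      _ = x * 2 ^ (b + t) := by ring
      _ ≤ _ := hxn
  have h1 := hhead (h' + 1) k' a c (hF b h' a x) ε (by omega) hac hsub (by
      intro A hA A' hA' hAA'
      exact hinj (h' + 1 + k') (h' + 1) a A A' (hsub hA) (hsub hA') (hlt A hA) (hlt A' hA') hAA')
    hε (by
      intro ζ hζ
      exact hfour k' (c - a) ζ (by omega) (by omega) hζ)
  have h2 : (fun X : ZMod (3 ^ (h' + 1 + k')) => (hd (h' + 1 + k') b h' a c x X : ℝ) / 2 ^ c) =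
      (fun X => (((hF b h' a x ×ˢ Fam k' (c - a)).filter
      fun p => xz (3 ^ (h' + 1 + k')) (cat a p.1 p.2) = X).card : ℝ) / 2 ^ c) := by
    funext X
    unfold hd
    rw [hk'']
  rw [h2]
  refine h1.trans ?_
  have hcard : ((hF b h' a x).card : ℝ) ≤ 2 ^ a := by
    have : (hF b h' a x).card ≤ (Icc 1 a).powerset.card := by
      apply Finset.card_le_card
      intro A hA
      exact Finset.mem_powerset.2 (mem_Fam.1 (hsub hA)).1.1
    rw [Finset.card_powerset, Nat.card_Icc] at this
    have h3 : a + 1 - 1 = a := by omega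
    rw [h3] at this
    exact_mod_cast this
  rw [mul_div_assoc]
  apply mul_le_mul_of_nonneg_left _ hε
  have hpos : (0 : ℝ) < 2 ^ a := by positivity
  rw [div_le_iff₀ hpos]
  apply Real.sqrt_le_iff.2
  constructor
  · positivity
  rw [mul_pow, Real.sq_sqrt (by positivity)]
  have h4 : (2 : ℝ) ^ b ≤ 2 ^ a := pow_le_pow_right₀ (by norm_num) hba.le
  have h5 : (0 : ℝ) < 2 ^ b := by positivity
  calc (3 : ℝ) ^ (h' + 1 + k') * (hF b h' a x).card ≤ 3 ^ (h' + 1 + k') * 2 ^ a := by
        apply mul_le_mul_of_nonneg_left hcard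
        positivity
    _ = 3 ^ (h' + 1 + k') / 2 ^ b * (2 ^ b * 2 ^ a) := by
        field_simp
    _ ≤ 3 ^ (h' + 1 + k') / 2 ^ b * (2 ^ a) ^ 2 := by
        apply mul_le_mul_of_nonneg_left _ (by positivity)
        rw [sq]
        exact mul_le_mul_of_nonneg_right h4 hpos.le

/-- oscillation for one value of the maximum -/
theorem one_bound (hfs : FamSplitStatement) (hcat : CatStatement) (hhead : HeadStatement)
    (hinj : InjStatement) {n b t h c : ℕ} {x ε : ℝ} (hn : h < n) (hx : 0 < x)
    (hε : 0 ≤ ε) (hxn : x * 2 ^ (b + t) ≤ 3 ^ n)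
    (hfour : ∀ (k' c' : ℕ) (ζ : ZMod (3 ^ k')), n - h ≤ k' → k' ≤ n → ¬ 3 ∣ ζ.val →
      ‖Fc k' c' ζ‖ ≤ ε) :
    oscf n (f n c) ≤ h * (t * (ε * √(3 ^ n / 2 ^ b))) +
      2 * ((((Fam n c).filter fun S => h ≤ (S.filter (· ≤ b)).card).card : ℝ) / 2 ^ c +
        (((Fam n c).filter fun S => (S.filter (· ≤ b + t)).card < n ∧
          (S.filter (· ≤ b + t)).card = (S.filter (· ≤ b)).card).card : ℝ) / 2 ^ c +
        (((Fam n c).filter fun S => x ≤ xr S).card : ℝ) / 2 ^ c) := by
  classical
  have e1 : f n c = fun X => (∑ h' ∈ range h,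
      ∑ a ∈ (range (c + 1)).filter (fun a => b < a ∧ a ≤ b + t), (hd n b h' a c x X : ℝ) / 2 ^ c) +
      ((((Fam n c).filter fun S => ¬ Ty b t h x S).filter fun S => xz (3 ^ n) S = X).card : ℝ) /
        2 ^ c := by
    funext X
    have e2 := count_eq hfs hcat (b := b) (t := t) (x := x) (c := c) hn X
    have e3 : ((Fam n c).filter fun S => xz (3 ^ n) S = X).card =
        ((Fam n c).filter fun S => Ty b t h x S ∧ xz (3 ^ n) S = X).card +
        (((Fam n c).filter fun S => ¬ Ty b t h x S).filter fun S => xz (3 ^ n) S = X).card := by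
      rw [← Finset.card_filter_add_card_filter_not (s := (Fam n c).filter fun S => xz (3 ^ n) S = X)
        (fun S => Ty b t h x S)]
      congr 2
      · ext S
        simp only [Finset.mem_filter]
        tauto
      · ext S
        simp only [Finset.mem_filter]
        tauto
    unfold f
    have e4 : (((Fam n c).filter fun S => xz (3 ^ n) S = X).card : ℝ) =
        (((Fam n c).filter fun S => Ty b t h x S ∧ xz (3 ^ n) S = X).card : ℝ) +
        ((((Fam n c).filter fun S => ¬ Ty b t h x S).filter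
          fun S => xz (3 ^ n) S = X).card : ℝ) := by
      exact_mod_cast e3
    rw [e4, add_div, e2]
    congr 1
    push_cast
    rw [Finset.sum_div]
    apply Finset.sum_congr rfl
    intro h' _
    rw [Finset.sum_div]
  rw [e1]
  refine (oscf_add_le n _ _).trans (add_le_add ?_ ?_)
  · refine (oscf_sum_le n (range h) _).trans ?_
    have hbd : ∀ h' ∈ range h, oscf n (fun X => ∑ a ∈ (range (c + 1)).filter
        (fun a => b < a ∧ a ≤ b + t), (hd n b h' a c x X : ℝ) / 2 ^ c) ≤
        t * (ε * √(3 ^ n / 2 ^ b)) := by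
      intro h' hh'
      refine (oscf_sum_le n _ _).trans ?_
      refine (Finset.sum_le_card_nsmul _ _ (ε * √(3 ^ n / 2 ^ b)) ?_).trans ?_
      · intro a ha
        obtain ⟨h1, h2, h3⟩ := Finset.mem_filter.1 ha
        exact hd_bound hhead hinj (Finset.mem_range.1 hh') hn h2 h3
          (by have := Finset.mem_range.1 h1; omega) hx hε hxn hfour
      · rw [nsmul_eq_mul]
        apply mul_le_mul_of_nonneg_right _ (by positivity)
        have : ((range (c + 1)).filter (fun a => b < a ∧ a ≤ b + t)).card ≤ (Ioc b (b + t)).card := by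
          apply Finset.card_le_card
          intro a ha
          obtain ⟨h1, h2, h3⟩ := Finset.mem_filter.1 ha
          exact Finset.mem_Ioc.2 ⟨h2, h3⟩
        rw [Nat.card_Ioc] at this
        have h4 : b + t - b = t := by omega
        rw [h4] at this
        exact_mod_cast this
    refine (Finset.sum_le_card_nsmul _ _ _ hbd).trans ?_
    rw [nsmul_eq_mul, Finset.card_range]
  · refine (oscf_le n _ (fun X => by positivity)).trans ?_
    rw [sum_count]
    apply mul_le_mul_of_nonneg_left _ (by norm_num)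
    rw [← add_div, ← add_div]
    apply div_le_div_of_nonneg_right _ (by positivity)
    have : ((Fam n c).filter fun S => ¬ Ty b t h x S).card ≤
        ((Fam n c).filter fun S => h ≤ (S.filter (· ≤ b)).card).card +
        ((Fam n c).filter fun S => (S.filter (· ≤ b + t)).card < n ∧
          (S.filter (· ≤ b + t)).card = (S.filter (· ≤ b)).card).card +
        ((Fam n c).filter fun S => x ≤ xr S).card := by
      refine (Finset.card_le_card (t := (((Fam n c).filter fun S => h ≤ (S.filter (· ≤ b)).card) ∪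
        ((Fam n c).filter fun S => (S.filter (· ≤ b + t)).card < n ∧
          (S.filter (· ≤ b + t)).card = (S.filter (· ≤ b)).card)) ∪
        ((Fam n c).filter fun S => x ≤ xr S)) ?_).trans ?_
      · intro S hS
        obtain ⟨hS1, hS2⟩ := Finset.mem_filter.1 hS
        rw [Finset.mem_union, Finset.mem_union, Finset.mem_filter, Finset.mem_filter,
          Finset.mem_filter]
        rcases not_ty hn hS2 with h1 | h1 | h1
        · exact Or.inl (Or.inl ⟨hS1, h1⟩)
        · exact Or.inl (Or.inr ⟨hS1, h1⟩)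
        · exact Or.inr ⟨hS1, h1⟩
      · refine (Finset.card_union_le _ _).trans ?_
        exact Nat.add_le_add_right (Finset.card_union_le _ _) _
    exact_mod_cast this

/-- JCORE. -/
theorem jcore (hfs : FamSplitStatement) (hcat : CatStatement) (hhead : HeadStatement)
    (hinj : InjStatement) (htyp : TypStatement) : JcoreStatement := by
  intro n b t h c₂ c₁ x ε _ hn hx hε hxn hfour
  classical
  obtain ⟨ht1, ht2, ht3, ht4⟩ := htyp
  set T : ℝ := h * (t * (ε * √(3 ^ n / 2 ^ b))) with hT
  have hT0 : 0 ≤ T := by positivity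
  set e1 : ℕ → ℝ := fun c =>
    (((Fam n c).filter fun S => h ≤ (S.filter (· ≤ b)).card).card : ℝ) / 2 ^ c with he1
  set e2 : ℕ → ℝ := fun c => (((Fam n c).filter fun S => (S.filter (· ≤ b + t)).card < n ∧
          (S.filter (· ≤ b + t)).card = (S.filter (· ≤ b)).card).card : ℝ) / 2 ^ c with he2
  set e3 : ℕ → ℝ := fun c => (((Fam n c).filter fun S => x ≤ xr S).card : ℝ) / 2 ^ c with he3
  set e4 : ℕ → ℝ := fun c => ((Fam n c).card : ℝ) / 2 ^ c with he4
  have hb : ∀ c ∈ range c₁, oscf n (f n c) ≤ 2 * (e1 c + e2 c + e3 c) +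
      (if c < c₂ then T else 0) + 2 * (if c₂ ≤ c then e4 c else 0) := by
    intro c _
    have p1 : 0 ≤ e1 c := by positivity
    have p2 : 0 ≤ e2 c := by positivity
    have p3 : 0 ≤ e3 c := by positivity
    by_cases hc : c < c₂
    · rw [if_pos hc, if_neg (not_le.2 hc)]
      have := one_bound hfs hcat hhead hinj (c := c) hn hx hε hxn hfour
      simp only [he1, he2, he3]
      linarith
    · rw [if_neg hc, if_pos (not_lt.1 hc)]
      have h1 := oscf_le n (f n c) (fun X => by unfold f; positivity)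
      have h2 : ∑ X : ZMod (3 ^ n), f n c X = e4 c := by
        unfold f
        exact sum_count n (Fam n c) (fun S => xz (3 ^ n) S) (2 ^ c)
      rw [h2] at h1
      linarith
  unfold Josc
  refine (Finset.sum_le_sum hb).trans ?_
  rw [Finset.sum_add_distrib, Finset.sum_add_distrib, ← Finset.mul_sum, ← Finset.mul_sum,
    Finset.sum_add_distrib, Finset.sum_add_distrib]
  have s1 : ∑ c ∈ range c₁, e1 c ≤ (8 / 7 : ℝ) ^ b / (9 / 7 : ℝ) ^ h := by
    have := ht1 n h b c₁ (8 / 7) hn.le (by norm_num)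
    have h2 : (2 * (8 / 7 : ℝ) - 1) = 9 / 7 := by norm_num
    rw [h2] at this
    exact this
  have s2 : ∑ c ∈ range c₁, e2 c ≤ 1 / 2 ^ t := ht2 n b t c₁
  have s3 : ∑ c ∈ range c₁, e3 c ≤ n / (3 * x) := ht3 n c₁ x hx
  have s4 : ∑ c ∈ range c₁, (if c₂ ≤ c then e4 c else 0) ≤ 3 ^ n / (3 / 2 : ℝ) ^ c₂ := by
    rw [← Finset.sum_filter]
    have : (range c₁).filter (fun c => c₂ ≤ c) = Ico c₂ c₁ := by
      ext c
      simp only [Finset.mem_filter, Finset.mem_range, Finset.mem_Ico]
      tauto
    rw [this]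
    exact ht4 n c₂ c₁
  have s5 : ∑ c ∈ range c₁, (if c < c₂ then T else 0) ≤ c₂ * T := by
    rw [← Finset.sum_filter, Finset.sum_const, nsmul_eq_mul]
    apply mul_le_mul_of_nonneg_right _ hT0
    have : ((range c₁).filter (fun c => c < c₂)).card ≤ (range c₂).card := by
      apply Finset.card_le_card
      intro c hc
      exact Finset.mem_range.2 (Finset.mem_filter.1 hc).2
    rw [Finset.card_range] at this
    exact_mod_cast this
  linarith

end Pool.Agent.Lib.MP_0a5adf_nt.TP.H60
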