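import Pool.Agent.Lib.MP_0a5adf_nt.TP.Interfaces

/-!
Module LOGWIN (TAO+): fixed-time transfer between logarithmic windows.  (helper60)
-/

set_option autoImplicit false

namespace Pool.Agent.Lib.MP_0a5adf_nt.TP.H60

open Finset

/-! ### Numerical facts -/

theorem th_lt : th < 8 / 5 := by
  unfold th
  have h : (5 : ℝ) * Real.logb 2 3 < 8 := by
    have h1 : (5 : ℝ) * Real.logb 2 3 = Real.logb 2 ((3 : ℝ) ^ 5) := by
      rw [Real.logb_pow]; norm_num
    have h2 : (8 : ℝ) = Real.logb 2 ((2 : ℝ) ^ 8) := by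
      rw [Real.logb_pow, Real.logb_self_eq_one (by norm_num)]; norm_num
    rw [h1]
    refine lt_of_lt_of_eq ?_ h2.symm
    exact Real.logb_lt_logb (by norm_num) (by norm_num) (by norm_num)
  linarith

theorem th_gt : 3 / 2 < th := by
  unfold th
  have h : (3 : ℝ) < 2 * Real.logb 2 3 := by
    have h1 : (2 : ℝ) * Real.logb 2 3 = Real.logb 2 ((3 : ℝ) ^ 2) := by
      rw [Real.logb_pow]; norm_num
    have h2 : (3 : ℝ) = Real.logb 2 ((2 : ℝ) ^ 3) := by
      rw [Real.logb_pow, Real.logb_self_eq_one (by norm_num)]; norm_num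
    rw [h1]
    refine lt_of_eq_of_lt h2 ?_
    exact Real.logb_lt_logb (by norm_num) (by norm_num) (by norm_num)
  linarith

theorem mu_pos : 0 < mu := by
  unfold mu
  have := th_lt
  linarith

theorem three_pow (s : ℕ) : (3 : ℝ) ^ s = (2 : ℝ) ^ (th * s) := by
  unfold th
  rw [Real.rpow_mul (by norm_num), Real.rpow_logb (by norm_num) (by norm_num) (by norm_num),
    Real.rpow_natCast]

theorem dev_ge (K : ℕ) : (K : ℝ) ^ (3 / 5 : ℝ) ≤ dev K := Nat.le_ceil _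

theorem dev_le (K : ℕ) : (dev K : ℝ) ≤ (K : ℝ) ^ (3 / 5 : ℝ) + 1 := by
  unfold dev
  exact (Nat.ceil_lt_add_one (by positivity)).le

theorem dev_sq (K : ℕ) : (K : ℝ) * (K : ℝ) ^ (1 / 5 : ℝ) ≤ (dev K : ℝ) ^ 2 := by
  have h0 : (0 : ℝ) ≤ K := Nat.cast_nonneg K
  have h1 := dev_ge K
  rcases Nat.eq_zero_or_pos K with hK | hK
  · subst hK
    simp only [Nat.cast_zero, zero_mul]
    positivity
  have h0' : (0 : ℝ) < K := by exact_mod_cast hK
  have h2 : (K : ℝ) * (K : ℝ) ^ (1 / 5 : ℝ) = ((K : ℝ) ^ (3 / 5 : ℝ)) ^ 2 := by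
    rw [← Real.rpow_natCast, ← Real.rpow_mul h0]
    nth_rw 1 [← Real.rpow_one (K : ℝ)]
    rw [← Real.rpow_add h0']
    norm_num
  rw [h2]
  exact pow_le_pow_left₀ (by positivity) h1 2

theorem dev_small {K : ℕ} (hK : 10 ^ 10 ≤ K) : 2 ≤ dev K ∧ 200 * dev K ≤ K := by
  have hK' : (10 : ℝ) ^ 10 ≤ K := by exact_mod_cast hK
  have h0 : (0 : ℝ) < K := lt_of_lt_of_le (by norm_num) hK'
  have h1 : (10 : ℝ) ^ 4 ≤ (K : ℝ) ^ (2 / 5 : ℝ) := by
    have : ((10 : ℝ) ^ 10) ^ (2 / 5 : ℝ) ≤ (K : ℝ) ^ (2 / 5 : ℝ) :=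
      Real.rpow_le_rpow (by norm_num) hK' (by norm_num)
    refine le_trans (le_of_eq ?_) this
    rw [← Real.rpow_natCast, ← Real.rpow_natCast, ← Real.rpow_mul (by norm_num)]
    norm_num
  have h2 : (10 : ℝ) ^ 4 * (K : ℝ) ^ (3 / 5 : ℝ) ≤ K := by
    have h3 : (K : ℝ) ^ (2 / 5 : ℝ) * (K : ℝ) ^ (3 / 5 : ℝ) = K := by
      rw [← Real.rpow_add h0]
      norm_num
    calc (10 : ℝ) ^ 4 * (K : ℝ) ^ (3 / 5 : ℝ) ≤ (K : ℝ) ^ (2 / 5 : ℝ) * (K : ℝ) ^ (3 / 5 : ℝ) := by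
          gcongr
      _ = K := h3
  have h4 := dev_le K
  constructor
  · have h5 : (2 : ℝ) ≤ (K : ℝ) ^ (3 / 5 : ℝ) := by
      have : ((10 : ℝ) ^ 10) ^ (3 / 5 : ℝ) ≤ (K : ℝ) ^ (3 / 5 : ℝ) :=
        Real.rpow_le_rpow (by norm_num) hK' (by norm_num)
      refine le_trans ?_ this
      rw [← Real.rpow_natCast, ← Real.rpow_mul (by norm_num)]
      have : ((10 : ℕ) : ℝ) * (3 / 5) = ((6 : ℕ) : ℝ) := by norm_num
      rw [this, Real.rpow_natCast]
      norm_num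
    have := h5.trans (dev_ge K)
    exact_mod_cast this
  · have : (200 * dev K : ℝ) ≤ K := by
      nlinarith
    exact_mod_cast this

theorem exp_bound {K i : ℕ} (hK : 1 ≤ K) (hi : 0 < i) (hiK : i ≤ 2 * K) :
    (K : ℝ) ^ 2 * Real.exp (-((dev K : ℝ) ^ 2 / (2 * i))) ≤ Nat.factorial 10 * 4 ^ 10 := by
  have h0 : (0 : ℝ) < K := by exact_mod_cast hK
  have hi0 : (0 : ℝ) < i := by exact_mod_cast hi
  have hiK' : (i : ℝ) ≤ 2 * K := by exact_mod_cast hiK
  set y : ℝ := (K : ℝ) ^ (1 / 5 : ℝ) / 4 with hy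
  have hy0 : 0 < y := by positivity
  have h1 : y ≤ (dev K : ℝ) ^ 2 / (2 * i) := by
    rw [le_div_iff₀ (by positivity)]
    have h2 := dev_sq K
    have h3 : (0 : ℝ) ≤ (K : ℝ) ^ (1 / 5 : ℝ) := by positivity
    calc y * (2 * i) ≤ y * (2 * (2 * K)) := by gcongr
      _ = (K : ℝ) * (K : ℝ) ^ (1 / 5 : ℝ) := by rw [hy]; ring
      _ ≤ _ := h2
  have h2 : Real.exp (-((dev K : ℝ) ^ 2 / (2 * i))) ≤ Real.exp (-y) :=
    Real.exp_le_exp.2 (by linarith)
  have h3 : y ^ 10 / (Nat.factorial 10 : ℝ) ≤ Real.exp y := Real.pow_div_factorial_le_exp y hy0.le 10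
  have h4 : y ^ 10 = (K : ℝ) ^ 2 / 4 ^ 10 := by
    rw [hy, div_pow, ← Real.rpow_natCast, ← Real.rpow_mul h0.le]
    congr 1
    have : (1 / 5 : ℝ) * ((10 : ℕ) : ℝ) = ((2 : ℕ) : ℝ) := by norm_num
    rw [this, Real.rpow_natCast]
  rw [h4] at h3
  have hf : (0 : ℝ) < (Nat.factorial 10 : ℝ) := by positivity
  have h5 : (K : ℝ) ^ 2 ≤ Real.exp y * (Nat.factorial 10 * 4 ^ 10) := by
    rw [div_div, div_le_iff₀ (by positivity)] at h3
    linarith
  calc (K : ℝ) ^ 2 * Real.exp (-((dev K : ℝ) ^ 2 / (2 * i))) ≤ (K : ℝ) ^ 2 * Real.exp (-y) := by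
        gcongr
    _ ≤ (Real.exp y * (Nat.factorial 10 * 4 ^ 10)) * Real.exp (-y) := by gcongr
    _ = (Nat.factorial 10 * 4 ^ 10) * (Real.exp y * Real.exp (-y)) := by ring
    _ = _ := by rw [← Real.exp_add]; simp

theorem three_fifth {K m : ℕ} (hm : K ≤ 100 * m) : (K : ℝ) * (3 / 5 : ℝ) ^ m ≤ 150 := by
  have h1 : (1 : ℝ) + m * (2 / 3) ≤ (1 + 2 / 3) ^ m := one_add_mul_le_pow (by norm_num) m
  have h2 : (3 / 5 : ℝ) ^ m * (1 + 2 / 3) ^ m = 1 := by
    rw [← mul_pow]; norm_num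
  have h3 : (K : ℝ) ≤ 100 * m := by exact_mod_cast hm
  have h4 : (0 : ℝ) ≤ (3 / 5 : ℝ) ^ m := by positivity
  calc (K : ℝ) * (3 / 5 : ℝ) ^ m ≤ 100 * m * (3 / 5 : ℝ) ^ m := by gcongr
    _ = 150 * ((3 / 5 : ℝ) ^ m * (m * (2 / 3))) := by ring
    _ ≤ 150 * ((3 / 5 : ℝ) ^ m * (1 + 2 / 3) ^ m) := by gcongr; linarith
    _ = 150 := by rw [h2]; ring

/-! ### Psi -/

theorem Psi_split (d : Bool) (B : Set ℕ) (m k l l' : ℕ) :
    Psi d B m k (l + l') = Psi d B m k l + Psi d B m (k + l) l' := by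
  classical
  unfold Psi blk
  rw [Finset.sum_filter, Finset.sum_filter, Finset.sum_filter, ← add_assoc]
  rw [Finset.sum_Ico_consecutive]
  · exact Nat.pow_le_pow_right (by norm_num) (by omega)
  · exact Nat.pow_le_pow_right (by norm_num) (by omega)

theorem Psi_nonneg (hphi : PhiStatement) (d : Bool) (B : Set ℕ) (m k l : ℕ) :
    0 ≤ Psi d B m k l := by
  unfold Psi
  apply Finset.sum_nonneg
  intro M _
  exact mul_nonneg (by positivity) (hphi.2.2.2.2 m _)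

theorem Psi_le (hphi : PhiStatement) (d : Bool) (B : Set ℕ) {m k : ℕ} (l : ℕ)
    (h : 3 ^ m ≤ 2 ^ k) : Psi d B m k l ≤ (l : ℝ) + 1 := by
  classical
  refine le_trans ?_ (hphi.2.2.2.1 d m k l h)
  unfold Psi
  apply Finset.sum_le_sum_of_subset_of_nonneg (Finset.filter_subset _ _)
  intro M _ _
  exact mul_nonneg (by positivity) (hphi.2.2.2.2 m _)

/-! ### Good numbers -/

theorem good_iff (hpath : PathStatement) {d : Bool} {a l i k D N : ℕ} {B : Set ℕ} (hD : 2 ≤ D)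
    (hia : i + 1 ≤ a) (h1 : |(a : ℝ) - mu * i - k| ≤ 1) (h2D : 2 * D ≤ k)
    (hinv : Inv d B (k - 2 * D) (2 ^ (a + l + 2 * D))) (hN : N ∈ blk a l)
    (hgood : ∀ j ≤ i, |2 * (od d j N : ℝ) - j| ≤ D) :
    ∀ j ≤ i, (N ∈ B ↔ (T d)^[j] N ∈ B) := by
  have hD' : (2 : ℝ) ≤ D := by exact_mod_cast hD
  obtain ⟨hNa, hNl⟩ := Finset.mem_Ico.1 hN
  have hNa' : (2 : ℝ) ^ (a : ℝ) ≤ N := by
    rw [Real.rpow_natCast]; exact_mod_cast hNa
  have hNl' : (N : ℝ) < (2 : ℝ) ^ ((a : ℝ) + l) := by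
    have : ((a : ℝ) + l) = ((a + l : ℕ) : ℝ) := by push_cast; ring
    rw [this, Real.rpow_natCast]; exact_mod_cast hNl
  have hth := th_lt
  have hth' := th_gt
  have hmu := mu_pos
  intro j
  induction j with
  | zero => intro _; simp
  | succ j ih =>
    intro hj
    rw [ih (by omega), Function.iterate_succ_apply']
    obtain ⟨p1, p2⟩ := hpath d N j D a hNa (by omega) (hgood j (by omega))
    have hji : mu * (j : ℝ) ≤ mu * i := by
      apply mul_le_mul_of_nonneg_left _ hmu.le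
      exact_mod_cast (by omega : j ≤ i)
    have hj0 : 0 ≤ mu * (j : ℝ) := by positivity
    have hthD : th * (D : ℝ) ≤ 8 / 5 * D := by
      apply mul_le_mul_of_nonneg_right hth.le (by positivity)
    apply hinv
    · have e1 : (2 : ℝ) ^ ((k : ℝ) - 2 * D) ≤ ((T d)^[j] N : ℝ) := by
        refine le_trans ?_ p1
        calc (2 : ℝ) ^ ((k : ℝ) - 2 * D) ≤ (2 : ℝ) ^ ((a : ℝ) + (-1) + (-(mu * j) - th * D / 2)) := by
              apply Real.rpow_le_rpow_of_exponent_le (by norm_num)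
              have := (abs_le.1 h1).1
              linarith
          _ = (2 : ℝ) ^ (a : ℝ) / 2 * (2 : ℝ) ^ (-(mu * j) - th * D / 2) := by
              rw [Real.rpow_add (by norm_num), Real.rpow_add (by norm_num)]
              congr 1
              rw [Real.rpow_neg_one]
              ring
          _ ≤ _ := by gcongr
      have e2 : ((k : ℝ) - 2 * D) = ((k - 2 * D : ℕ) : ℝ) := by
        rw [Nat.cast_sub h2D]; push_cast; ring
      rw [e2, Real.rpow_natCast] at e1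
      exact_mod_cast e1
    · refine lt_of_le_of_lt p2 ?_
      calc 2 * (N : ℝ) * (2 : ℝ) ^ (-(mu * j) + th * D / 2)
          < 2 * (2 : ℝ) ^ ((a : ℝ) + l) * (2 : ℝ) ^ (-(mu * j) + th * D / 2) := by
            gcongr
        _ = (2 : ℝ) ^ (1 + ((a : ℝ) + l) + (-(mu * j) + th * D / 2)) := by
            rw [Real.rpow_add (by norm_num) (1 + ((a : ℝ) + l)),
              Real.rpow_add (by norm_num : (0:ℝ) < 2) 1 ((a : ℝ) + l), Real.rpow_one]
        _ ≤ (2 : ℝ) ^ ((a + l + 2 * D : ℕ) : ℝ) := by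
            apply Real.rpow_le_rpow_of_exponent_le (by norm_num)
            push_cast
            linarith
        _ = _ := by rw [Real.rpow_natCast]

/-! ### The error terms -/

theorem josc_sum {C₃ : ℝ} (hC : 0 < C₃)
    (hjosc : ∀ n c₁ : ℕ, 1 ≤ n → Josc n c₁ ≤ C₃ / (n : ℝ) ^ 3) {K i m D : ℕ} (hK : 1 ≤ K)
    (hi : i + 1 ≤ 2 * K) (hm : K ≤ 100 * m) :
    ∑ s ∈ typ i D, ∑ n ∈ Ioc m s, Josc n (i + 1) ≤ 4000000 * C₃ / K := by
  have hm0 : 0 < m := by omega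
  have hm' : (0 : ℝ) < m := by exact_mod_cast hm0
  have hK' : (0 : ℝ) < K := by exact_mod_cast hK
  have hmK : (K : ℝ) ≤ 100 * m := by exact_mod_cast hm
  have h1 : ∀ s ∈ typ i D, ∑ n ∈ Ioc m s, Josc n (i + 1) ≤ i * (C₃ / (m : ℝ) ^ 3) := by
    intro s hs
    have hsi : s ≤ i := by
      have := Finset.mem_range.1 (Finset.mem_filter.1 hs).1
      omega
    refine (Finset.sum_le_card_nsmul _ _ (C₃ / (m : ℝ) ^ 3) ?_).trans ?_
    · intro n hn
      obtain ⟨h1, h2⟩ := Finset.mem_Ioc.1 hn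
      refine (hjosc n (i + 1) (by omega)).trans ?_
      apply div_le_div_of_nonneg_left hC.le (by positivity)
      apply pow_le_pow_left₀ hm'.le
      exact_mod_cast h1.le
    · rw [nsmul_eq_mul, Nat.card_Ioc]
      apply mul_le_mul_of_nonneg_right _ (by positivity)
      exact_mod_cast (by omega : s - m ≤ i)
  refine (Finset.sum_le_card_nsmul _ _ _ h1).trans ?_
  rw [nsmul_eq_mul]
  have h2 : ((typ i D).card : ℝ) ≤ 2 * K := by
    have : (typ i D).card ≤ (range (i + 1)).card := Finset.card_le_card (Finset.filter_subset _ _)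
    rw [Finset.card_range] at this
    exact_mod_cast this.trans hi
  have h3 : (i : ℝ) ≤ 2 * K := by exact_mod_cast (by omega : i ≤ 2 * K)
  calc ((typ i D).card : ℝ) * (i * (C₃ / (m : ℝ) ^ 3)) ≤ (2 * K) * ((2 * K) * (C₃ / (m : ℝ) ^ 3)) := by
        gcongr
    _ ≤ 4000000 * C₃ / K := by
        rw [le_div_iff₀ hK']
        have h4 : (K : ℝ) ^ 3 ≤ (100 * m) ^ 3 := pow_le_pow_left₀ hK'.le hmK 3
        calc (2 * K) * ((2 * K) * (C₃ / (m : ℝ) ^ 3)) * K = 4 * C₃ * ((K : ℝ) ^ 3 / (m : ℝ) ^ 3) := by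
              ring
          _ ≤ 4 * C₃ * (((100 : ℝ) * m) ^ 3 / (m : ℝ) ^ 3) := by gcongr
          _ = 4000000 * C₃ := by
              rw [mul_pow, mul_div_assoc, div_self (by positivity)]
              ring

open Classical in
/-- the error term of GPHI -/
theorem gphi_err (hgphi : GphiStatement) {C₃ : ℝ} (hC : 0 < C₃)
    (hjosc : ∀ n c₁ : ℕ, 1 ≤ n → Josc n c₁ ≤ C₃ / (n : ℝ) ^ 3) {d : Bool} {K i m k' l' : ℕ}
    (hK : 1 ≤ K) (hi0 : 0 < i)
    (hi : i + 1 ≤ 2 * K) (hm : K ≤ 100 * m) (h4m : 4 * m ≤ i) (hl' : l' + 1 ≤ 3 * K)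
    (htyp : ∀ s ∈ typ i (dev K), m ≤ s ∧ 3 ^ s ≤ 2 ^ k') (h3m : 3 ^ m ≤ 2 ^ k') :
    ∑ M ∈ blk k' l', 1 / (M : ℝ) * |G i (dev K) (sg d * M) - Phi m (sg d * M)| ≤
      12000000 * C₃ + 6 * (Nat.factorial 10 * 4 ^ 10) + 450 := by
  refine (hgphi d i (dev K) m k' l' h4m htyp h3m).trans ?_
  have hK' : (1 : ℝ) ≤ K := by exact_mod_cast hK
  have hK0 : (0 : ℝ) < K := by linarith
  have h1 := josc_sum (D := dev K) hC hjosc hK hi hm
  have h2 := exp_bound hK hi0 (by omega : i ≤ 2 * K)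
  have h3 := three_fifth hm
  have h4 : (l' : ℝ) + 1 ≤ 3 * K := by exact_mod_cast hl'
  set F : ℝ := (Nat.factorial 10 * 4 ^ 10 : ℝ) with hF
  have h5 : Real.exp (-((dev K : ℝ) ^ 2 / (2 * i))) ≤ F / K := by
    rw [le_div_iff₀ hK0]
    refine le_trans ?_ h2
    have : (0 : ℝ) ≤ Real.exp (-((dev K : ℝ) ^ 2 / (2 * i))) := (Real.exp_pos _).le
    have hKK : (K : ℝ) ≤ (K : ℝ) ^ 2 := by nlinarith
    rw [mul_comm]
    exact mul_le_mul_of_nonneg_right hKK this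
  have h6 : (3 / 5 : ℝ) ^ m ≤ 150 / K := by
    rw [le_div_iff₀ hK0]; linarith
  have hF0 : 0 < F := by positivity
  calc ((l' : ℝ) + 1) * (∑ s ∈ typ i (dev K), ∑ n ∈ Ioc m s, Josc n (i + 1) +
        2 * Real.exp (-((dev K : ℝ) ^ 2 / (2 * i))) + (3 / 5 : ℝ) ^ m) ≤
      ((l' : ℝ) + 1) * (4000000 * C₃ / K + 2 * (F / K) + 150 / K) := by
        gcongr
    _ ≤ (3 * K) * (4000000 * C₃ / K + 2 * (F / K) + 150 / K) := by
        gcongr
    _ = 12000000 * C₃ + 6 * F + 450 := by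
        field_simp
        ring

open Classical in
theorem bad_err (hbad : BadNStatement) {d : Bool} {K a l i : ℕ} (hK : 1 ≤ K) (hi0 : 0 < i)
    (hi : i + 1 ≤ 2 * K) (hia : i ≤ a) (hl : l ≤ K) :
    ∑ N ∈ (blk a l).filter (fun N => ∃ j ≤ i, ((dev K : ℕ) : ℝ) < |2 * (od d j N : ℝ) - j|),
      (1 : ℝ) / N ≤ 4 * (Nat.factorial 10 * 4 ^ 10) := by
  refine (hbad.2 d a l i (dev K) hia).trans ?_
  have hK' : (1 : ℝ) ≤ K := by exact_mod_cast hK
  have h2 := exp_bound hK hi0 (by omega : i ≤ 2 * K)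
  have h3 : (l : ℝ) ≤ K := by exact_mod_cast hl
  have h4 : (i : ℝ) + 1 ≤ 2 * K := by exact_mod_cast hi
  have h5 : (0 : ℝ) ≤ Real.exp (-((dev K : ℝ) ^ 2 / (2 * i))) := (Real.exp_pos _).le
  calc (l : ℝ) * (((i : ℝ) + 1) * (2 * Real.exp (-((dev K : ℝ) ^ 2 / (2 * i))))) ≤
      K * ((2 * K) * (2 * Real.exp (-((dev K : ℝ) ^ 2 / (2 * i))))) := by gcongr
    _ = 4 * ((K : ℝ) ^ 2 * Real.exp (-((dev K : ℝ) ^ 2 / (2 * i)))) := by ring
    _ ≤ _ := by linarith

/-! ### The typical numbers of odd steps -/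

theorem typ_facts {K a i m k : ℕ} (hK : 10 ^ 10 ≤ K) (hKk : K ≤ k)
    (h1 : |(a : ℝ) - mu * i - k| ≤ 1) (hia : 10 * i ≤ 9 * a) (hm : 5 * m ≤ i)
    (hKm : K ≤ 100 * m) (s : ℕ) (hs : s ∈ typ i (dev K)) :
    m ≤ s ∧ (3 : ℝ) ^ s ≤ 1 / (K : ℝ) * 2 ^ (k - 2 * dev K) := by
  obtain ⟨hd2, hdK⟩ := dev_small hK
  set D := dev K with hD
  obtain ⟨hs1, hs2⟩ := Finset.mem_filter.1 hs
  obtain ⟨hs3, hs4⟩ := abs_le.1 hs2
  have hdK' : (200 : ℝ) * D ≤ K := by exact_mod_cast hdK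
  have hKk' : (K : ℝ) ≤ k := by exact_mod_cast hKk
  have hK' : (10 : ℝ) ^ 10 ≤ K := by exact_mod_cast hK
  have hK0 : (0 : ℝ) < K := lt_of_lt_of_le (by norm_num) hK'
  have hia' : (10 : ℝ) * i ≤ 9 * a := by exact_mod_cast hia
  have hm' : (5 : ℝ) * m ≤ i := by exact_mod_cast hm
  have hKm' : (K : ℝ) ≤ 100 * m := by exact_mod_cast hKm
  constructor
  · have : (m : ℝ) ≤ s := by linarith
    exact_mod_cast this
  · have hth := th_lt
    have hth' := th_gt
    have e1 : (3 : ℝ) ^ s = (2 : ℝ) ^ (th * s) := three_pow s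
    -- `K ≤ 2 ^ (K / 20 + 5)`
    have e2 : (K : ℝ) ≤ (2 : ℝ) ^ ((K : ℝ) / 20 + 5) := by
      have h2 : K < 20 * (K / 20 + 1) := by omega
      have h3 : K / 20 + 1 ≤ 2 ^ (K / 20) := Nat.lt_two_pow_self
      have h4 : K ≤ 2 ^ (K / 20 + 5) := by
        rw [pow_add]
        omega
      have h5 : (K : ℝ) ≤ (2 : ℝ) ^ (K / 20 + 5 : ℕ) := by exact_mod_cast h4
      refine h5.trans ?_
      rw [← Real.rpow_natCast]
      apply Real.rpow_le_rpow_of_exponent_le (by norm_num)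
      push_cast
      have : ((K / 20 : ℕ) : ℝ) ≤ (K : ℝ) / 20 := Nat.cast_div_le
      linarith
    have e3 : ((k - 2 * D : ℕ) : ℝ) = k - 2 * D := by
      rw [Nat.cast_sub (by omega)]; push_cast; ring
    have e4 : (K : ℝ) * (3 : ℝ) ^ s ≤ 2 ^ (k - 2 * D) := by
      rw [e1, ← Real.rpow_natCast, e3]
      calc (K : ℝ) * (2 : ℝ) ^ (th * s) ≤ (2 : ℝ) ^ ((K : ℝ) / 20 + 5) * (2 : ℝ) ^ (th * s) := by
            gcongr
        _ = (2 : ℝ) ^ ((K : ℝ) / 20 + 5 + th * s) := by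
            rw [Real.rpow_add (by norm_num) ((K : ℝ) / 20 + 5)]
        _ ≤ _ := by
            apply Real.rpow_le_rpow_of_exponent_le (by norm_num)
            have g1 : th * s ≤ th * i / 2 + th * D / 2 := by
              have : th * (2 * s) ≤ th * (i + D) := by
                apply mul_le_mul_of_nonneg_left _ (by linarith)
                linarith
              linarith
            have g2 : th * (D : ℝ) ≤ 8 / 5 * D := by
              apply mul_le_mul_of_nonneg_right hth.le (by positivity)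
            have g3 : th * (i : ℝ) ≤ 8 / 5 * i := by
              apply mul_le_mul_of_nonneg_right hth.le (by positivity)
            have g4 : mu * (i : ℝ) = i - th * i / 2 := by unfold mu; ring
            obtain ⟨h3, h4⟩ := abs_le.1 h1
            rw [g4] at h4 h3
            have hK'' : (1000 : ℝ) ≤ K := le_trans (by norm_num) hK'
            linarith
    rw [one_div, ← div_eq_inv_mul, le_div_iff₀ hK0]
    linarith

/-! ### Assembly -/

theorem sum_le_union {s t u : Finset ℕ} (g : ℕ → ℝ) (hg : ∀ x, 0 ≤ g x) (h : s ⊆ t ∪ u) :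
    ∑ x ∈ s, g x ≤ ∑ x ∈ t, g x + ∑ x ∈ u, g x := by
  calc ∑ x ∈ s, g x ≤ ∑ x ∈ t ∪ u, g x :=
        Finset.sum_le_sum_of_subset_of_nonneg h (fun x _ _ => hg x)
    _ ≤ ∑ x ∈ t ∪ u, g x + ∑ x ∈ t ∩ u, g x := by
        have : 0 ≤ ∑ x ∈ t ∩ u, g x := Finset.sum_nonneg fun x _ => hg x
        linarith
    _ = _ := Finset.sum_union_inter

open Classical in
/-- the image of the logarithmic mass -/
noncomputable def Um (d : Bool) (a l i D : ℕ) (B : Set ℕ) : ℝ :=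
  ∑ N ∈ (blk a l).filter (fun N => |2 * (od d i N : ℝ) - i| ≤ D ∧ (T d)^[i] N ∈ B), (1 : ℝ) / N

theorem Alog_Um (hpath : PathStatement) (hbad : BadNStatement) {d : Bool} {K a l i k : ℕ}
    {B : Set ℕ} (hK : 1 ≤ K) (hi0 : 0 < i)
    (hi : i + 1 ≤ 2 * K) (hl : l ≤ K) (hD : 2 ≤ dev K)
    (hia : i + 1 ≤ a) (h1 : |(a : ℝ) - mu * i - k| ≤ 1) (h2D : 2 * dev K ≤ k)
    (hinv : Inv d B (k - 2 * dev K) (2 ^ (a + l + 2 * dev K))) :
    |Alog B a l - Um d a l i (dev K) B| ≤ 4 * (Nat.factorial 10 * 4 ^ 10) := by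
  classical
  have hb := bad_err hbad (d := d) hK hi0 hi (by omega : i ≤ a) hl
  have hg : ∀ N : ℕ, (0 : ℝ) ≤ 1 / N := fun N => by positivity
  have hgood : ∀ N ∈ blk a l, (¬ ∃ j ≤ i, ((dev K : ℕ) : ℝ) < |2 * (od d j N : ℝ) - j|) →
      |2 * (od d i N : ℝ) - i| ≤ dev K ∧ (N ∈ B ↔ (T d)^[i] N ∈ B) := by
    intro N hN hn
    push Not at hn
    exact ⟨hn i le_rfl, good_iff hpath hD hia h1 h2D hinv hN hn i le_rfl⟩
  have u1 : Alog B a l ≤ Um d a l i (dev K) B + 4 * (Nat.factorial 10 * 4 ^ 10) := by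
    unfold Alog Um
    refine (sum_le_union (fun N => (1 : ℝ) / N) hg (t := (blk a l).filter
      (fun N => |2 * (od d i N : ℝ) - i| ≤ dev K ∧ (T d)^[i] N ∈ B))
      (u := (blk a l).filter (fun N => ∃ j ≤ i, ((dev K : ℕ) : ℝ) < |2 * (od d j N : ℝ) - j|))
      ?_).trans ?_
    · intro N hN
      obtain ⟨hN1, hN2⟩ := Finset.mem_filter.1 hN
      rw [Finset.mem_union, Finset.mem_filter, Finset.mem_filter]
      by_cases hbadN : ∃ j ≤ i, ((dev K : ℕ) : ℝ) < |2 * (od d j N : ℝ) - j|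
      · exact Or.inr ⟨hN1, hbadN⟩
      · obtain ⟨g1, g2⟩ := hgood N hN1 hbadN
        exact Or.inl ⟨hN1, g1, g2.1 hN2⟩
    · gcongr
  have u2 : Um d a l i (dev K) B ≤ Alog B a l + 4 * (Nat.factorial 10 * 4 ^ 10) := by
    unfold Alog Um
    refine (sum_le_union (fun N => (1 : ℝ) / N) hg (t := (blk a l).filter (fun N => N ∈ B))
      (u := (blk a l).filter (fun N => ∃ j ≤ i, ((dev K : ℕ) : ℝ) < |2 * (od d j N : ℝ) - j|))
      ?_).trans ?_
    · intro N hN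
      obtain ⟨hN1, hN2, hN3⟩ := Finset.mem_filter.1 hN
      rw [Finset.mem_union, Finset.mem_filter, Finset.mem_filter]
      by_cases hbadN : ∃ j ≤ i, ((dev K : ℕ) : ℝ) < |2 * (od d j N : ℝ) - j|
      · exact Or.inr ⟨hN1, hbadN⟩
      · obtain ⟨g1, g2⟩ := hgood N hN1 hbadN
        exact Or.inl ⟨hN1, g2.2 hN3⟩
    · gcongr
  rw [abs_le]
  constructor <;> linarith

open Classical in
theorem G_Psi {d : Bool} {i D m k l k' l' : ℕ} {E : ℝ} (B : Set ℕ) (hk : k ≤ k')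
    (hl : k' + l' ≤ k + l)
    (hE : ∑ M ∈ blk k l, 1 / (M : ℝ) * |G i D (sg d * M) - Phi m (sg d * M)| ≤ E) :
    |∑ M ∈ (blk k' l').filter (fun M => M ∈ B), 1 / (M : ℝ) * G i D (sg d * M) -
      Psi d B m k' l'| ≤ E := by
  unfold Psi
  rw [← Finset.sum_sub_distrib]
  refine (Finset.abs_sum_le_sum_abs _ _).trans ?_
  refine le_trans ?_ hE
  calc ∑ M ∈ (blk k' l').filter (fun M => M ∈ B), |1 / (M : ℝ) * G i D (sg d * M) -
        1 / (M : ℝ) * Phi m (sg d * M)| =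
      ∑ M ∈ (blk k' l').filter (fun M => M ∈ B),
        1 / (M : ℝ) * |G i D (sg d * M) - Phi m (sg d * M)| := by
        apply Finset.sum_congr rfl
        intro M _
        rw [← mul_sub, abs_mul, abs_of_nonneg (by positivity : (0 : ℝ) ≤ 1 / (M : ℝ))]
    _ ≤ _ := by
        apply Finset.sum_le_sum_of_subset_of_nonneg
        · intro M hM
          obtain ⟨h1, _⟩ := Finset.mem_filter.1 hM
          unfold blk at h1 ⊢
          obtain ⟨h2, h3⟩ := Finset.mem_Ico.1 h1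
          refine Finset.mem_Ico.2 ⟨?_, ?_⟩
          · exact (Nat.pow_le_pow_right (by norm_num) hk).trans h2
          · exact lt_of_lt_of_le h3 (Nat.pow_le_pow_right (by norm_num) hl)
        · intro M _ _
          positivity

/-- LOGWIN. -/
theorem logwin (hpath : PathStatement) (hupper : UpperStatement) (hlower : LowerStatement)
    (hbad : BadNStatement) (hgphi : GphiStatement) (hphi : PhiStatement)
    (hjosc : JoscStatement) : LogWinStatement := by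
  classical
  obtain ⟨C₃, hC₃, hj⟩ := hjosc 3
  set F : ℝ := (Nat.factorial 10 * 4 ^ 10 : ℝ) with hF
  have hF0 : 0 < F := by positivity
  set E : ℝ := 12000000 * C₃ + 6 * F + 450 with hE
  have hE0 : 0 < E := by positivity
  refine ⟨12 + 2 * E + 4 * F, 10 ^ 10, by positivity, ?_⟩
  intro d K a l i m k B hK hKk ha hl h1 hia hm hKm hinv
  obtain ⟨hD2, hDK⟩ := dev_small hK
  set D := dev K with hD
  have hD2' : (2 : ℝ) ≤ D := by exact_mod_cast hD2
  have h2D : 2 * D ≤ k := by omega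
  have hK1 : 1 ≤ K := by omega
  have hK1' : (1 : ℝ) ≤ K := by exact_mod_cast hK1
  have hK2' : (2 : ℝ) ≤ K := by exact_mod_cast (by omega : 2 ≤ K)
  have hK0' : (0 : ℝ) < K := by linarith
  have hi0 : 0 < i := by omega
  have hmu := mu_pos
  have hKk' : (K : ℝ) ≤ k := by exact_mod_cast hKk
  have ha10 : 10 ≤ a := by
    have h2 := (abs_le.1 h1).1
    have h3 : 0 ≤ mu * (i : ℝ) := by positivity
    have h4 : (11 : ℝ) ≤ K := by exact_mod_cast (by omega : 11 ≤ K)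
    have : (10 : ℝ) ≤ a := by linarith
    exact_mod_cast this
  have hia' : i + 1 ≤ a := by omega
  have hi2 : i + 1 ≤ 2 * K := by omega
  have hA := Alog_Um hpath hbad hK1 hi0 hi2 hl hD2 hia' h1 h2D hinv
  rw [← hF, ← hD] at hA
  have hx0 : (0 : ℝ) ≤ 1 / K := by positivity
  have hx2 : (1 : ℝ) / K ≤ 1 / 2 := by
    apply one_div_le_one_div_of_le (by norm_num) hK2'
  have htf := typ_facts hK hKk h1 hia hm hKm
  rw [← hD] at htf
  have hU := hupper d a l i k D (1 / K) B hD2 hia' h2D h1 hx0 hx2 (fun s hs => (htf s hs).2)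
  have hL := hlower d a l i k D (1 / K) B hD2 hia' h2D h1 hx0 hx2 (fun s hs => (htf s hs).2)
  have htf' : ∀ s ∈ typ i D, m ≤ s ∧ 3 ^ s ≤ 2 ^ (k - 2 * D) := by
    intro s hs
    obtain ⟨g1, g2⟩ := htf s hs
    refine ⟨g1, ?_⟩
    have : (3 : ℝ) ^ s ≤ 2 ^ (k - 2 * D) := by
      refine g2.trans ?_
      have h5 : (0 : ℝ) ≤ 2 ^ (k - 2 * D) := by positivity
      calc 1 / (K : ℝ) * 2 ^ (k - 2 * D) ≤ 1 * 2 ^ (k - 2 * D) := by
            apply mul_le_mul_of_nonneg_right _ h5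
            linarith
        _ = _ := one_mul _
    exact_mod_cast this
  have h3m : 3 ^ m ≤ 2 ^ (k - 2 * D) := by
    have hs : i / 2 ∈ typ i D := by
      refine Finset.mem_filter.2 ⟨Finset.mem_range.2 (by omega), ?_⟩
      have h5 : (i : ℝ) ≤ 2 * ((i / 2 : ℕ) : ℝ) + 1 := by exact_mod_cast (by omega : i ≤ 2 * (i / 2) + 1)
      have h6 : 2 * ((i / 2 : ℕ) : ℝ) ≤ i := by exact_mod_cast (by omega : 2 * (i / 2) ≤ i)
      rw [abs_le]
      constructor <;> linarith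
    obtain ⟨g1, g2⟩ := htf' _ hs
    exact (Nat.pow_le_pow_right (by norm_num) g1).trans g2
  have hl' : (l + 4 * D) + 1 ≤ 3 * K := by omega
  have hG := gphi_err hgphi (d := d) (k' := k - 2 * D) (l' := l + 4 * D) hC₃ hj hK1 hi0 hi2 hKm
    (by omega) hl' htf' h3m
  rw [← hF, ← hE, ← hD] at hG
  have hG1 := G_Psi B le_rfl le_rfl hG
  have hG2 := G_Psi B (k' := k + 2 * D) (l' := l - 4 * D) (by omega) (by omega) hG
  -- the window edges
  have h3m' : ∀ k', k - 2 * D ≤ k' → 3 ^ m ≤ 2 ^ k' := fun k' hk' =>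
    h3m.trans (Nat.pow_le_pow_right (by norm_num) hk')
  have s1 : Psi d B m (k - 2 * D) (l + 4 * D) ≤ Psi d B m k l + 2 * (2 * D + 1) := by
    have e1 : l + 4 * D = 2 * D + (l + 2 * D) := by ring
    have e2 : k - 2 * D + 2 * D = k := by omega
    rw [e1, Psi_split, e2, Psi_split]
    have g1 := Psi_le hphi d B (2 * D) (h3m' (k - 2 * D) le_rfl)
    have g2 := Psi_le hphi d B (2 * D) (h3m' (k + l) (by omega))
    push_cast at g1 g2
    linarith
  have s2 : Psi d B m k l ≤ Psi d B m (k + 2 * D) (l - 4 * D) + 2 * (2 * D + 1) := by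
    by_cases h4 : 4 * D ≤ l
    · have e1 : l = 2 * D + ((l - 4 * D) + 2 * D) := by omega
      have g0 : Psi d B m k l = Psi d B m k (2 * D) + (Psi d B m (k + 2 * D) (l - 4 * D) +
          Psi d B m (k + 2 * D + (l - 4 * D)) (2 * D)) := by
        rw [← Psi_split, ← Psi_split, ← e1]
      have g1 := Psi_le hphi d B (2 * D) (h3m' k (by omega))
      have g2 := Psi_le hphi d B (2 * D) (h3m' (k + 2 * D + (l - 4 * D)) (by omega))
      push_cast at g1 g2
      linarith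
    · have g1 := Psi_le hphi d B l (h3m' k (by omega))
      have g2 := Psi_nonneg hphi d B m (k + 2 * D) (l - 4 * D)
      have g3 : (l : ℝ) ≤ 4 * D := by exact_mod_cast (by omega : l ≤ 4 * D)
      linarith
  have hPl := Psi_le hphi d B l (h3m' k (by omega))
  have hPl' := Psi_le hphi d B (l - 4 * D) (h3m' (k + 2 * D) (by omega))
  have hP0 := Psi_nonneg hphi d B m k l
  have hP0' := Psi_nonneg hphi d B m (k + 2 * D) (l - 4 * D)
  have hlK : (l : ℝ) + 1 ≤ 2 * K := by exact_mod_cast (by omega : l + 1 ≤ 2 * K)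
  have hlK' : ((l - 4 * D : ℕ) : ℝ) + 1 ≤ 2 * K := by
    exact_mod_cast (by omega : (l - 4 * D) + 1 ≤ 2 * K)
  have hUm1 : Um d a l i D B ≤ (1 + 2 * (1 / (K : ℝ))) *
      ∑ M ∈ (blk (k - 2 * D) (l + 4 * D)).filter (fun M => M ∈ B),
        1 / (M : ℝ) * G i D (sg d * M) := hU
  have hUm2 : (1 - 1 / (K : ℝ)) *
      ∑ M ∈ (blk (k + 2 * D) (l - 4 * D)).filter (fun M => M ∈ B),
        1 / (M : ℝ) * G i D (sg d * M) ≤ Um d a l i D B := hL
  set W := ∑ M ∈ (blk (k - 2 * D) (l + 4 * D)).filter (fun M => M ∈ B),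
        1 / (M : ℝ) * G i D (sg d * M) with hW
  set W' := ∑ M ∈ (blk (k + 2 * D) (l - 4 * D)).filter (fun M => M ∈ B),
        1 / (M : ℝ) * G i D (sg d * M) with hW'
  set P := Psi d B m k l with hP
  set P' := Psi d B m (k + 2 * D) (l - 4 * D) with hP'
  set P'' := Psi d B m (k - 2 * D) (l + 4 * D) with hP''
  set U := Um d a l i D B with hUdef
  set x : ℝ := 1 / K with hx
  have hxP : x * P ≤ 2 := by
    rw [hx, one_div, ← div_eq_inv_mul, div_le_iff₀ hK0']; linarith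
  have hxP' : x * P' ≤ 2 := by
    rw [hx, one_div, ← div_eq_inv_mul, div_le_iff₀ hK0']; linarith
  obtain ⟨a1, a2⟩ := abs_le.1 hA
  obtain ⟨b1, b2⟩ := abs_le.1 hG1
  obtain ⟨c1, c2⟩ := abs_le.1 hG2
  have hR : 0 ≤ 2 * (2 * (D : ℝ) + 1) + E := by positivity
  rw [abs_le]
  have hmul : (12 + 2 * E + 4 * F) * (D : ℝ) ≥ 12 * D + 2 * E + 4 * F := by
    nlinarith
  constructor
  · have e1 : (1 - x) * (P' - E) ≤ (1 - x) * W' := by
      apply mul_le_mul_of_nonneg_left _ (by linarith)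
      linarith
    have e2 : (1 - x) * (P' - E) = P' - x * P' - E + x * E := by ring
    have e3 : 0 ≤ x * E := by positivity
    linarith
  · have e1 : (1 + 2 * x) * W ≤ (1 + 2 * x) * (P + (2 * (2 * D + 1) + E)) := by
      apply mul_le_mul_of_nonneg_left _ (by linarith)
      linarith
    have e2 : (1 + 2 * x) * (P + (2 * (2 * D + 1) + E)) = P + 2 * (x * P) +
      (2 * (2 * D + 1) + E) + 2 * x * (2 * (2 * D + 1) + E) := by ring
    have e3 : 2 * x * (2 * (2 * (D : ℝ) + 1) + E) ≤ 1 * (2 * (2 * D + 1) + E) := by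
      apply mul_le_mul_of_nonneg_right _ hR
      linarith
    linarith

end Pool.Agent.Lib.MP_0a5adf_nt.TP.H60
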